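import Pool.Agent.NBT.StmtsC

/-!
# Squad NBT, row PUR (helper62)
-/

set_option autoImplicit false

open Matrix Filter Topology

namespace Pool.Agent.NBT.H62

open Pool.Agent.PFS Pool.Agent.PFJ Pool.Agent.NBT

theorem pur (hTbf : TbfStmt) (_hPje : PjeStmt) (_hPjf : PjfStmt) (hZmi : ZmiStmt)
    (hSxn : SxnStmt) (hZlf : ZlfStmt) (hZlt : ZltStmt) : PurStmt := by
  intro n C Γ Γ₀ K T c h w hw k j x hmv hsx
  obtain ⟨hjk, p, hp, hpx⟩ := hsx
  set S : Finset (Fin K) := ({k, j} : Finset (Fin K))ᶜ with hS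
  have hSc : Sᶜ = {k, j} := by rw [hS, compl_compl]
  have hkS : k ∉ S := by simp [hS]
  have hθ : Tendsto (fun m : ℕ => (m : ℝ)) atTop atTop := tendsto_natCast_atTop_atTop
  obtain ⟨φ, g, s, W, P, Q, hφ, hg, hs, hZL, -, -⟩ :=
    hZmi n C Γ Γ₀ K T c h w hw S (fun m => (m : ℝ)) hθ
  have hθ' : Tendsto (fun m => ((φ m : ℕ) : ℝ)) atTop atTop := hθ.comp hφ.tendsto_atTop
  obtain ⟨z1, z2, z3, z4, z5, z6, z7, z8⟩ :=
    hZlf n C Γ Γ₀ K T c h w hw S (fun m => (φ m : ℝ)) g s W P Q hθ' hg hs hZL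
  have hPC : PCone C := h.cc.toPCone
  have hT' : T (Function.update W k (P x)) := by
    apply hZlt n C Γ Γ₀ K T c h w hw S (fun m => (φ m : ℝ)) g s W P Q hθ' hg hs hZL
      (Function.update w k x) _ hmv.mem
    · refine ⟨1, ?_⟩
      have h1 : fS (Function.update w k x) S = fS w S := by
        unfold fS
        refine Finset.sum_congr rfl fun i hi => ?_
        rw [Function.update_of_ne]
        rintro rfl
        exact hkS hi
      rw [h1, one_smul, sub_self]
      exact hPC.zero_cl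
    · intro i
      by_cases hik : i = k
      · subst hik
        rw [Function.update_self, Function.update_self]
        simp only [if_neg hkS, one_smul]
        exact hZL.limP (fun _ => x) x tendsto_const_nhds
      · rw [Function.update_of_ne hik, Function.update_of_ne hik]
        exact hZL.lim i
  have hSml : Pool.Agent.PCO.Sml C (fS w S) (x - p x) := by
    have h1 := (hp.ker (x - p x)).1 (by rw [map_sub, hp.idB _ (hp.mem x), sub_self])
    rwa [← hS] at h1
  have hPx : P x = P (p x) := by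
    have h1 := z6 S (Finset.Subset.refl _) _ hSml
    rw [map_sub] at h1
    exact sub_eq_zero.1 h1
  have hyB : P x ∈ BI C W {k, j} := by
    have h1 := hZL.mapP {k, j} (by rw [hSc])
    rw [hPx, ← h1]
    exact Submodule.mem_map_of_mem (hp.mem x)
  obtain ⟨-, -, -, -, -, t6, -⟩ := hTbf n C Γ Γ₀ K T c h w hw
  have hne : ∀ a : ℝ, P x ≠ a • W k := by
    intro a ha
    have h1 : P (p x - a • w k) = 0 := by
      rw [map_sub, map_smul, z1 k hkS, ← hPx, ha, sub_self]
    have h2 : p x - a • w k ∈ BI C w Sᶜ := by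
      rw [hSc]
      exact sub_mem (hp.mem x) (Submodule.smul_mem _ _ ((t6 k {k, j}).2 (by simp)))
    exact hpx a (sub_eq_zero.1 (z7 _ h2 h1))
  have hMv : Mv T W k (P x) := ⟨hT', hne⟩
  refine ⟨W, P x, hZL.tw, hMv, ?_⟩
  obtain ⟨⟨i0, hi0⟩, _, h3⟩ := hSxn n C Γ Γ₀ K T c h W hZL.tw k (P x) hMv
  have hall : ∀ i, Sx C W k (P x) i → i = j := by
    intro i hi
    have h1 := (h3 {k, j} (by simp)).2 hyB i hi
    rw [Finset.mem_insert, Finset.mem_singleton] at h1
    rcases h1 with h1 | h1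
    · exact absurd h1 hi.1
    · exact h1
  intro r
  constructor
  · exact hall r
  · rintro rfl
    have h1 := hall i0 hi0
    rwa [h1] at hi0

end Pool.Agent.NBT.H62
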