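import Pool.Agent.NBT.StmtsC

/-!
# Squad NBT, row SCC (helper62)
-/

set_option autoImplicit false

open Matrix Filter Topology

namespace Pool.Agent.NBT.H62

open Pool.Agent.PFS Pool.Agent.PFJ Pool.Agent.NBT

theorem scc (hTbf : TbfStmt) (hPje : PjeStmt) (hSxn : SxnStmt) (hChe : CheStmt)
    (hFlw : FlwStmt) (hLoc : LocStmt) (hSca : ScaStmt) (hScu : ScuStmt) (hSce : SceStmt) :
    SccStmt := by
  intro n C Γ Γ₀ K T c h hM hNT i j l hij hjl hil Rij Rjl Rli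
  have hTne : ∃ w, T w := by
    rcases Relation.ReflTransGen.cases_head Rij with h0 | ⟨r, hr, _⟩
    · exact absurd h0 hij
    · obtain ⟨w, x, hw, _⟩ := hr
      exact ⟨w, hw⟩
  obtain ⟨I, Up, hC⟩ := hSca n C Γ Γ₀ K T c h hM hTne i j l hij hjl hil Rij Rjl Rli
  obtain ⟨v, hvI, j0, hj0I, hvj, hcvj, P, w, hSta, hP1, hP2⟩ :=
    hSce n C Γ Γ₀ K T c h hM hNT I Up hC
  obtain ⟨δ, hδ, hU⟩ := hScu n C Γ Γ₀ K T c h I Up hC
  obtain ⟨S, hS⟩ : ∃ S : Finset (Fin K), S = insert v (insert j0 Up) := ⟨_, rfl⟩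
  have hnR : ¬ Rig C T S := by
    rw [hS]
    exact hC.two v hvI j0 hj0I hvj
  have hmS : ∀ r, r ∈ S ↔ r = v ∨ r = j0 ∨ r ∈ Up := by
    intro r
    rw [hS, Finset.mem_insert, Finset.mem_insert]
  have hvS : v ∈ S := (hmS v).2 (Or.inl rfl)
  have hjS : j0 ∈ S := (hmS j0).2 (Or.inr (Or.inl rfl))
  have hUpS : Up ⊆ S := fun r hr => (hmS r).2 (Or.inr (Or.inr hr))
  obtain ⟨W, W', hSPr, hNr, ⟨i1, hi1S, hi1⟩, hsurv⟩ :=
    hFlw n C Γ Γ₀ K T c h hM S hnR δ hδ w hSta.tw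
  obtain ⟨hU1, hU2⟩ := hU S W W' hUpS hSPr hNr
  have hTW : T W := hSPr.tw
  obtain ⟨-, -, -, -, -, t6, -⟩ := hTbf n C Γ Γ₀ K T c h W hTW
  obtain ⟨x, hx, hxj⟩ := hSta.mv
  -- the surviving moves
  have hmv : ∀ m ∈ P, ∃ y, Mv T W m y ∧ ∀ r, Sx C W m y r → r ∉ S := by
    intro m hm
    obtain ⟨hmI, hmv, hmj, hcm⟩ := hP1 m hm
    obtain ⟨y, hy, hyI⟩ := hSta.frc m hm
    have hcmj : c {m, j0} ≤ 2 := by
      apply hNT m v j0 hmv hvj hmj _ hcvj
      rw [Finset.pair_comm]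
      exact hcm
    have hmS' : m ∉ S := by
      rw [hmS]
      rintro (h1 | h1 | h1)
      · exact hmv h1
      · exact hmj h1
      · exact hC.dis m hmI h1
    obtain ⟨-, hs2, -⟩ := hSxn n C Γ Γ₀ K T c h w hSta.tw m y hy
    have hr : ∀ r, Sx C w m y r → r ∉ S := by
      intro r hr
      rw [hmS]
      rintro (h1 | h1 | h1)
      · subst h1
        exact hChe n C Γ Γ₀ K T c h w hSta.tw m r j0 y x hmv hvj hmj hcmj hy hx hr
          ((hxj j0).2 rfl)
      · subst h1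
        have h2 := hs2 r hr
        omega
      · exact hC.dis r (hyI r hr) h1
    obtain ⟨y', hy', hyi⟩ := hsurv m y hy (Or.inl ⟨hmS', hr⟩)
    exact ⟨y', hy', fun r h1 => hr r ((hyi r).1 h1)⟩
  obtain ⟨x', hx', hx'i⟩ : ∃ x', Mv T W v x' ∧ ∀ r, Sx C W v x' r ↔ Sx C w v x r := by
    apply hsurv v x hx
    right
    refine ⟨hvS, fun r hr => ?_⟩
    rw [(hxj r).1 hr]
    exact hjS
  by_cases ha : W' v ∈ BI C W S
  · -- case (b)
    obtain ⟨p, hp⟩ := hPje n C Γ Γ₀ K T c h W hTW S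
    have hWv : W' v = W v := by
      rw [← hp.idB _ ha]
      exact hSPr.prj v hvS p hp
    have hi1v : i1 ≠ v := by
      rintro rfl
      exact hi1 ha
    have hi1U : i1 ∉ Up := by
      intro h1
      apply hi1
      rw [hU1 i1 h1]
      exact (t6 i1 S).2 hi1S
    have hi1j : i1 = j0 := by
      rcases (hmS i1).1 hi1S with h1 | h1 | h1
      · exact absurd h1 hi1v
      · exact h1
      · exact absurd h1 hi1U
    subst hi1j
    have hW' : Function.update W i1 (W' i1) = W' := by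
      funext r
      by_cases hr : r = i1
      · subst hr
        rw [Function.update_self]
      · rw [Function.update_of_ne hr]
        by_cases hrS : r ∈ S
        · rcases (hmS r).1 hrS with h1 | h1 | h1
          · subst h1
            exact hWv.symm
          · exact absurd h1 hr
          · exact (hU1 r h1).symm
        · exact (hSPr.out r hrS).symm
    have hMv : Mv T W i1 (W' i1) := by
      refine ⟨by rw [hW']; exact hSPr.tw', fun a ha' => hi1 ?_⟩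
      rw [ha']
      exact Submodule.smul_mem _ _ ((t6 i1 S).2 hi1S)
    obtain ⟨⟨r, hr⟩, hs2, hs3⟩ := hSxn n C Γ Γ₀ K T c h W hTW i1 (W' i1) hMv
    have hrJ := (hs3 (insert i1 Sᶜ) (Finset.mem_insert_self _ _)).2 (hSPr.bnd i1 hi1S) r hr
    have hri : r ≠ i1 := hr.1
    have hrS : r ∉ S := by
      rcases Finset.mem_insert.1 hrJ with h1 | h1
      · exact absurd h1 hri
      · exact Finset.mem_compl.1 h1
    have hvr : v ≠ r := by
      rintro rfl
      exact hrS hvS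
    have hcvr : c {v, r} ≤ 2 := hNT v i1 r hvj hri.symm hvr hcvj (hs2 r hr)
    exact hChe n C Γ Γ₀ K T c h W hTW v i1 r x' (W' i1) hvj hri.symm hvr hcvr hx' hMv
      ((hx'i i1).2 ((hxj i1).2 rfl)) hr
  · -- case (a)
    obtain ⟨U, y, hTU, hMU, hout, hJ, hsU⟩ :=
      hLoc n C Γ Γ₀ K T c h S W W' hSPr v hvS ha
    obtain ⟨⟨r, hr⟩, hs2, -⟩ := hSxn n C Γ Γ₀ K T c h U hTU v y hMU
    have hrS : r ∉ S := hout r hr
    have hrIU : r ∈ I ∪ Up := hJ (I ∪ Up) (Finset.mem_union_left _ hvI) (hU2 v hvI) r hr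
    have hrI : r ∈ I := by
      rcases Finset.mem_union.1 hrIU with h1 | h1
      · exact h1
      · exact absurd (hUpS h1) hrS
    have hrv : r ≠ v := by
      rintro rfl
      exact hrS hvS
    have hrj : r ≠ j0 := by
      rintro rfl
      exact hrS hjS
    have hcvr : 3 ≤ c {v, r} := hs2 r hr
    obtain ⟨y1, hy1, hy1S⟩ := hmv r (hP2 r hrI hrv hrj hcvr)
    obtain ⟨y2, hy2, hy2i⟩ := hsU r y1 hy1 (Or.inr hrS) (fun r' hr' => Or.inr (hy1S r' hr'))
    obtain ⟨⟨r', hr'⟩, hs2', -⟩ := hSxn n C Γ Γ₀ K T c h U hTU r y2 hy2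
    have hr'S : r' ∉ S := hy1S r' ((hy2i r').1 hr')
    have hvr' : v ≠ r' := by
      rintro rfl
      exact hr'S hvS
    have hcr : c {v, r'} ≤ 2 := hNT v r r' hrv.symm hr'.1.symm hvr' hcvr (hs2' r' hr')
    exact hChe n C Γ Γ₀ K T c h U hTU v r r' y y2 hrv.symm hr'.1.symm hvr' hcr hMU hy2 hr hr'

end Pool.Agent.NBT.H62
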