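import Pool.Agent.NBT.StmtsA

/-!
# Squad NBT, row ZUP (helper62)
-/

set_option autoImplicit false

open Matrix Filter Topology

namespace Pool.Agent.NBT.H62

open Pool.Agent.PFS Pool.Agent.PFJ Pool.Agent.NBT

variable {n K : ℕ}

theorem sum_upd (W : Fin K → V n) (k : Fin K) (y : V n) :
    ∑ i, Function.update W k y i + W k = y + ∑ i, W i := by
  rw [Finset.sum_update_of_mem (Finset.mem_univ k),
    ← Finset.add_sum_erase Finset.univ W (Finset.mem_univ k), Finset.sdiff_singleton_eq_erase]
  abel

theorem upd_mem {C : Set (V n)} (hP : PCone C) {W : Fin K → V n} {k : Fin K} {y : V n}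
    (hy : y ∈ closure C) (hW : ∑ i, W i ∈ C) {M : ℝ} (hM : 0 < M)
    (h : M • ∑ i, Function.update W k y i - W k ∈ closure C) :
    ∑ i, Function.update W k y i ∈ C := by
  have h1 : (M + 1) • ∑ i, Function.update W k y i =
      (M • ∑ i, Function.update W k y i - W k) + (y + ∑ i, W i) := by
    rw [← sum_upd W k y, add_smul, one_smul]
    abel
  have h2 : (M + 1) • ∑ i, Function.update W k y i ∈ C := by
    rw [h1]
    exact hP.cl_add' h (hP.cl_add' hy hW)
  exact (hP.smul_iff (by positivity)).1 h2

theorem zup (hTbf : TbfStmt) (hBin : BinStmt) (hZpr : ZprStmt) : ZupStmt := by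
  intro n C Γ Γ₀ K T c h w hw S θ g s W P Q hθ hg hs hZL
  obtain ⟨⟨p1, p2, p3⟩, ⟨p4, p5⟩, -, -, -⟩ :=
    hZpr n C Γ Γ₀ K T c h w hw S θ g s W P Q hθ hg hs hZL
  obtain ⟨-, -, t3, -, -, t6, -⟩ := hTbf n C Γ Γ₀ K T c h w hw
  have hPC : PCone C := h.cc.toPCone
  have hgΓ : ∀ m, g m ∈ Γ := fun m => h.sub (hg m)
  have hWs : ∑ i, W i ∈ C := (h.pes W hZL.tw).1.sum_mem
  have hrpos : ∀ m i, 0 < (if i ∈ S then Real.exp (θ m) else 1) := by
    intro m i
    split_ifs
    · exact Real.exp_pos _
    · exact one_pos
  -- the zoomed simplices are in the family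
  have hmem : ∀ k x, T (Function.update w k x) → ∀ m, T (fun i => s m • act (g m)
      ((if i ∈ S then Real.exp (θ m) else 1) • Function.update w k x i)) := by
    intro k x hx m
    have h1 := h.scl _ hx (fun i => if i ∈ S then Real.exp (θ m) else 1) (hrpos m)
    exact ((hBin n C Γ Γ₀ K T c h _ h1).2.1 (g m) (hg m) (s m) (hs m)).1
  refine ⟨?_, ?_⟩
  · intro k hk x hx
    have hx' := (h.pes _ hx).1
    have hxcl : x ∈ closure C := by
      have h1 := hx'.cl k
      rwa [Function.update_self] at h1
    have hPx : P x ∈ closure C := p4 x hxcl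
    have hlim : ∀ i, Tendsto (fun m => s m • act (g m)
        ((if i ∈ S then Real.exp (θ m) else 1) • Function.update w k x i)) atTop
        (𝓝 (Function.update W k (P x) i)) := by
      intro i
      by_cases hik : i = k
      · subst hik
        rw [Function.update_self, Function.update_self]
        simp only [if_neg hk, one_smul]
        exact hZL.limP (fun _ => x) x tendsto_const_nhds
      · rw [Function.update_of_ne hik, Function.update_of_ne hik]
        exact hZL.lim i
    refine h.cld _ _ (hmem k x hx) hlim ?_
    obtain ⟨M, hM, hMw⟩ := hPC.absorb hx'.sum_mem (w k)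
    have hsum : Tendsto (fun m => M • ∑ i, s m • act (g m)
        ((if i ∈ S then Real.exp (θ m) else 1) • Function.update w k x i) -
          s m • act (g m) (w k)) atTop
        (𝓝 (M • ∑ i, Function.update W k (P x) i - W k)) := by
      refine ((tendsto_finsetSum _ fun i _ => hlim i).const_smul M).sub ?_
      have h1 := hZL.limP (fun _ => w k) (w k) tendsto_const_nhds
      rwa [p1 k hk] at h1
    refine upd_mem hPC hPx hWs hM (isClosed_closure.mem_of_tendsto hsum ?_)
    filter_upwards [hθ.eventually_ge_atTop 0] with m hm
    have h2 : M • ∑ i, s m • act (g m)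
        ((if i ∈ S then Real.exp (θ m) else 1) • Function.update w k x i) -
          s m • act (g m) (w k) = s m • act (g m) (M • ∑ i,
        (if i ∈ S then Real.exp (θ m) else 1) • Function.update w k x i - w k) := by
      rw [CC.act_sub, CC.act_smul, CC.act_sum, smul_sub, smul_comm (s m) M, ← Finset.smul_sum]
    rw [h2, h.cc.sact_cl_iff (hgΓ m) (hs m)]
    refine hPC.le_trans (y := M • ∑ i, Function.update w k x i) (subset_closure hMw) ?_
    rw [← smul_sub, ← Finset.sum_sub_distrib]
    refine hPC.cl_smul (hPC.cl_sum fun i _ => ?_) hM.le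
    have h3 : (if i ∈ S then Real.exp (θ m) else 1) • Function.update w k x i -
        Function.update w k x i =
        ((if i ∈ S then Real.exp (θ m) else 1) - 1) • Function.update w k x i := by
      rw [sub_smul, one_smul]
    rw [h3]
    refine hPC.cl_smul (hx'.cl i) ?_
    split_ifs
    · have := Real.one_le_exp hm
      linarith
    · simp
  · intro k hk x hxS hx
    have hx' := (h.pes _ hx).1
    have hxcl : x ∈ closure C := by
      have h1 := hx'.cl k
      rwa [Function.update_self] at h1
    have hQx : Q x ∈ closure C := p5 x hxS hxcl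
    have hlim : ∀ i, Tendsto (fun m => s m • act (g m)
        ((if i ∈ S then Real.exp (θ m) else 1) • Function.update w k x i)) atTop
        (𝓝 (Function.update W k (Q x) i)) := by
      intro i
      by_cases hik : i = k
      · subst hik
        rw [Function.update_self, Function.update_self]
        have h1 := hZL.limQ (fun _ => x) x (fun _ => hxS) tendsto_const_nhds
        refine h1.congr fun m => ?_
        rw [if_pos hk, CC.act_smul, smul_smul]
      · rw [Function.update_of_ne hik, Function.update_of_ne hik]
        exact hZL.lim i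
    refine h.cld _ _ (hmem k x hx) hlim ?_
    obtain ⟨M, hM, hMw⟩ := hPC.absorb hx'.sum_mem (w k)
    -- the vertices in `S` are in `B_S`
    have hB : ∀ i ∈ S, Function.update w k x i ∈ BI C w S := by
      intro i hi
      by_cases hik : i = k
      · subst hik
        rw [Function.update_self]
        exact hxS
      · rw [Function.update_of_ne hik]
        exact (t6 i S).2 hi
    have hv : M • fS (Function.update w k x) S - w k ∈ BI C w S := by
      refine Submodule.sub_mem _ (Submodule.smul_mem _ _ ?_) ((t6 k S).2 hk)
      exact Submodule.sum_mem _ fun i hi => hB i hi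
    have hv2 : M • fS (Function.update w k x) S - w k ∈ closure C := by
      apply t3 S _ hv (fun _ => M)
      have h1 : ∑ m ∈ Sᶜ, M • w m = M • fS (Function.update w k x) Sᶜ := by
        rw [fS_update w k x (by simpa using hk)]
        unfold fS
        rw [Finset.smul_sum]
      rw [h1]
      have h2 : M • fS (Function.update w k x) S - w k + M • fS (Function.update w k x) Sᶜ =
          M • ∑ i, Function.update w k x i - w k := by
        rw [← fS_add_compl _ S, smul_add]
        abel
      rw [h2]
      exact subset_closure hMw
    have hQv := p5 _ hv hv2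
    have hQs : Q (fS (Function.update w k x) S) = fS (Function.update W k (Q x)) S := by
      unfold fS
      rw [map_sum]
      refine Finset.sum_congr rfl fun i hi => ?_
      by_cases hik : i = k
      · subst hik
        rw [Function.update_self, Function.update_self]
      · rw [Function.update_of_ne hik, Function.update_of_ne hik]
        exact p3 i hi
    rw [map_sub, map_smul, hQs, p3 k hk] at hQv
    refine upd_mem hPC hQx hWs hM ?_
    have h4 : M • ∑ i, Function.update W k (Q x) i - W k =
        (M • fS (Function.update W k (Q x)) S - W k) +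
          M • fS (Function.update W k (Q x)) Sᶜ := by
      rw [← fS_add_compl _ S, smul_add]
      abel
    rw [h4]
    refine hPC.cl_add hQv (hPC.cl_smul ?_ hM.le)
    rw [fS_update W k (Q x) (by simpa using hk)]
    exact fS_cl hPC (fun i => (h.pes W hZL.tw).1.cl i) _

end Pool.Agent.NBT.H62
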